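import Mathlib

/-!
# Project DOM (helper426): MP_0828a1_co, domination in uniform hypergraphs

`z_k(x,y) = sup γ(H) / (x n + y m)` over the `k`-uniform hypergraphs without isolated vertices.

Theorem. `z_4 = 1/(4x+y)` and `z_5 = max (1/(5x+y)) (2/(9x+3y))` on all of `D_k`, and for every
`k ≥ 4`: `z_k(x,y) = 1/(kx+y)` exactly if `x ≤ 0` or `y ≥ ⌊(k-3)/2⌋ x`.

Multi-hypergraphs: a finite set `I` of indices and edges `E i ⊆ ℕ`, `i ∈ I`.
Every `S_XXX : Prop` is one piece: file `Pool/Agent/Run7/<you>/DOM/XXX.lean`, importing this file,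
`theorem t_XXX : (hypotheses as said) → S_XXX`.

Weights (in units of 1/9): a covered vertex 2, an edge of size 4, 3, 2, 1: 2, 3, 5, 7.
`W = 2 |⋃ E| + Σ w`. Claim (P): `9 τ ≤ W` for all edge sizes 1..4. Claim (L): `9 τ + 1 ≤ W` for linear
hypergraphs with edges of sizes 3, 4 and a defect. Operations: taking `v` (lemma `take`), deleting
`v` from all its edges (lemma `shrink`).
-/

set_option autoImplicit false

namespace Run7.h426.DOM

open Finset

/-! ## Multi-hypergraphs -/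

/-- covered vertices -/
def U (I : Finset ℕ) (E : ℕ → Finset ℕ) : Finset ℕ := I.biUnion E

/-- weight of an edge of size `s` -/
def wt (s : ℕ) : ℕ := if s = 4 then 2 else if s = 3 then 3 else if s = 2 then 5 else 7

/-- total weight -/
def W (I : Finset ℕ) (E : ℕ → Finset ℕ) : ℕ := 2 * (U I E).card + ∑ i ∈ I, wt (E i).card

/-- `T` meets all edges -/
def Tra (T : Finset ℕ) (I : Finset ℕ) (E : ℕ → Finset ℕ) : Prop := ∀ i ∈ I, ∃ v ∈ E i, v ∈ T

/-- slack at least `s`: there is a transversal `T` with `9 |T| + s ≤ W` -/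
def Sl (s : ℕ) (I : Finset ℕ) (E : ℕ → Finset ℕ) : Prop :=
  ∃ T : Finset ℕ, Tra T I E ∧ 9 * T.card + s ≤ W I E

/-- the edges which do not contain `v` (taking `v`) -/
def tk (v : ℕ) (I : Finset ℕ) (E : ℕ → Finset ℕ) : Finset ℕ := I.filter (fun i => v ∉ E i)

/-- deleting `v` from all edges -/
def sh (v : ℕ) (E : ℕ → Finset ℕ) : ℕ → Finset ℕ := fun i => (E i).erase v

/-- number of edges of size `s` which contain `v` -/
def dg (s v : ℕ) (I : Finset ℕ) (E : ℕ → Finset ℕ) : ℕ :=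
  (I.filter (fun i => v ∈ E i ∧ (E i).card = s)).card

/-- edge sizes 1..4 -/
def Sz (I : Finset ℕ) (E : ℕ → Finset ℕ) : Prop := ∀ i ∈ I, 1 ≤ (E i).card ∧ (E i).card ≤ 4

/-- edge sizes 3, 4 -/
def Sz34 (I : Finset ℕ) (E : ℕ → Finset ℕ) : Prop := ∀ i ∈ I, (E i).card = 3 ∨ (E i).card = 4

/-- linear -/
def Lin (I : Finset ℕ) (E : ℕ → Finset ℕ) : Prop :=
  ∀ i ∈ I, ∀ j ∈ I, i ≠ j → ∀ a ∈ E i, a ∈ E j → ∀ b ∈ E i, b ∈ E j → a = b

/-- a defect: an edge of size 4 with a vertex whose degree is not 3, or an edge of size 3 which meets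
another edge -/
def Dft (I : Finset ℕ) (E : ℕ → Finset ℕ) : Prop :=
  (∃ i ∈ I, (E i).card = 4 ∧ ∃ v ∈ E i, (I.filter (fun j => v ∈ E j)).card ≠ 3) ∨
  (∃ i ∈ I, (E i).card = 3 ∧ ∃ j ∈ I, i ≠ j ∧ ∃ v ∈ E i, v ∈ E j)

/-- induction hypothesis (P) -/
def HP (N : ℕ) : Prop := ∀ I E, (U I E).card < N → Sz I E → Sl 0 I E

/-- induction hypothesis (L) -/
def HL (N : ℕ) : Prop := ∀ I E, (U I E).card < N → Sz34 I E → Lin I E → Dft I E → Sl 1 I E

/-! ## Compiled basic lemmas -/

theorem Sl.mono {s t : ℕ} {I : Finset ℕ} {E : ℕ → Finset ℕ} (h : Sl t I E) (hs : s ≤ t) :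
    Sl s I E := by
  obtain ⟨T, h1, h2⟩ := h
  exact ⟨T, h1, by omega⟩

theorem U_tk (v : ℕ) (I : Finset ℕ) (E : ℕ → Finset ℕ) : U (tk v I E) E ⊆ (U I E).erase v := by
  intro a ha
  simp only [U, tk, mem_biUnion, mem_filter, mem_erase] at ha ⊢
  obtain ⟨i, ⟨hi, hv⟩, hai⟩ := ha
  refine ⟨?_, i, hi, hai⟩
  rintro rfl
  exact hv hai

theorem U_sh (v : ℕ) (I : Finset ℕ) (E : ℕ → Finset ℕ) : U I (sh v E) = (U I E).erase v := by
  ext a
  simp only [U, sh, mem_biUnion, mem_erase]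
  constructor
  · rintro ⟨i, hi, h1, h2⟩
    exact ⟨h1, i, hi, h2⟩
  · rintro ⟨h1, i, hi, h2⟩
    exact ⟨i, hi, h1, h2⟩

/-- general step: `T0` meets the edges which are given up, the others are kept or made smaller -/
theorem step {s t : ℕ} {I J : Finset ℕ} {E E' : ℕ → Finset ℕ} (T0 : Finset ℕ)
    (hJ : ∀ i ∈ I, (∃ v ∈ E i, v ∈ T0) ∨ (i ∈ J ∧ E' i ⊆ E i))
    (hW : W J E' + 9 * T0.card + t ≤ W I E + s) (h : Sl s J E') : Sl t I E := by
  obtain ⟨T, h1, h2⟩ := h
  refine ⟨T0 ∪ T, ?_, ?_⟩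
  · intro i hi
    rcases hJ i hi with ⟨v, hv, hT⟩ | ⟨hi2, hsub⟩
    · exact ⟨v, hv, mem_union_left _ hT⟩
    · obtain ⟨a, ha, haT⟩ := h1 i hi2
      exact ⟨a, hsub ha, mem_union_right _ haT⟩
  · have hc : (T0 ∪ T).card ≤ T0.card + T.card := card_union_le _ _
    omega

/-- the weight after giving up the edges which satisfy `p`; the vertices of `K` are covered only by
such edges -/
theorem W_del {I : Finset ℕ} {E : ℕ → Finset ℕ} (p : ℕ → Prop) [DecidablePred p] (K : Finset ℕ)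
    (hKU : ∀ a ∈ K, a ∈ U I E) (hK : ∀ a ∈ K, ∀ i ∈ I, a ∈ E i → p i) :
    W (I.filter (fun i => ¬ p i)) E + 2 * K.card + ∑ i ∈ I with p i, wt (E i).card ≤ W I E := by
  have hU : (U (I.filter (fun i => ¬ p i)) E).card + K.card ≤ (U I E).card := by
    have hd : Disjoint (U (I.filter (fun i => ¬ p i)) E) K := by
      rw [disjoint_left]
      intro a ha hk
      simp only [U, mem_biUnion, mem_filter] at ha
      obtain ⟨i, ⟨hi, hv⟩, hai⟩ := ha
      exact hv (hK a hk i hi hai)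
    rw [← card_union_of_disjoint hd]
    apply card_le_card
    intro a ha
    rcases mem_union.1 ha with ha | ha
    · simp only [U, mem_biUnion, mem_filter] at ha ⊢
      obtain ⟨i, ⟨hi, hv⟩, hai⟩ := ha
      exact ⟨i, hi, hai⟩
    · exact hKU a ha
  have hs : ∑ i ∈ I, wt (E i).card =
      (∑ i ∈ I with p i, wt (E i).card) + ∑ i ∈ I with ¬ p i, wt (E i).card :=
    (sum_filter_add_sum_filter_not I p _).symm
  unfold W
  omega

/-- the weight after taking `v` -/
theorem W_tk {I : Finset ℕ} {E : ℕ → Finset ℕ} (v : ℕ) (K : Finset ℕ)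
    (hvU : v ∈ U I E) (hvK : v ∉ K)
    (hKU : ∀ a ∈ K, a ∈ U I E) (hK : ∀ a ∈ K, ∀ i ∈ I, a ∈ E i → v ∈ E i) :
    W (tk v I E) E + 2 + 2 * K.card + ∑ i ∈ I with v ∈ E i, wt (E i).card ≤ W I E := by
  have := W_del (I := I) (E := E) (fun i => v ∈ E i) (insert v K)
    (fun a ha => by rcases mem_insert.1 ha with rfl | ha; exacts [hvU, hKU a ha])
    (fun a ha i hi hai => by rcases mem_insert.1 ha with rfl | ha; exacts [hai, hK a ha i hi hai])
  rw [card_insert_of_notMem hvK] at this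
  unfold tk
  omega

/-- the weight after deleting `v` from its edges -/
theorem W_sh {I : Finset ℕ} {E : ℕ → Finset ℕ} (v : ℕ) (hvU : v ∈ U I E) :
    W I (sh v E) + 2 + ∑ i ∈ I with v ∈ E i, wt (E i).card =
      W I E + ∑ i ∈ I with v ∈ E i, wt ((E i).card - 1) := by
  have hU : (U I (sh v E)).card + 1 = (U I E).card := by
    rw [U_sh]; exact card_erase_add_one hvU
  have hs : ∑ i ∈ I, wt (E i).card =
      (∑ i ∈ I with v ∈ E i, wt (E i).card) + ∑ i ∈ I with ¬ v ∈ E i, wt (E i).card :=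
    (sum_filter_add_sum_filter_not I (fun i => v ∈ E i) _).symm
  have hs2 : ∑ i ∈ I, wt (sh v E i).card =
      (∑ i ∈ I with v ∈ E i, wt ((E i).card - 1)) + ∑ i ∈ I with ¬ v ∈ E i, wt (E i).card := by
    rw [← sum_filter_add_sum_filter_not I (fun i => v ∈ E i)]
    congr 1
    · apply sum_congr rfl
      intro i hi
      rw [sh, card_erase_of_mem (mem_filter.1 hi).2]
    · apply sum_congr rfl
      intro i hi
      rw [sh, erase_eq_of_notMem (mem_filter.1 hi).2]
  unfold W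
  omega

/-- taking `v`; `K` is a set of vertices which are covered only by edges through `v` -/
theorem take {s g : ℕ} {I : Finset ℕ} {E : ℕ → Finset ℕ} (v : ℕ) (K : Finset ℕ)
    (hvU : v ∈ U I E) (hvK : v ∉ K)
    (hKU : ∀ a ∈ K, a ∈ U I E) (hK : ∀ a ∈ K, ∀ i ∈ I, a ∈ E i → v ∈ E i)
    (hw : 9 + g ≤ 2 + 2 * K.card + ∑ i ∈ I with v ∈ E i, wt (E i).card)
    (h : Sl s (tk v I E) E) : Sl (s + g) I E := by
  have := W_tk v K hvU hvK hKU hK
  refine step {v} ?_ ?_ h
  · intro i hi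
    by_cases hv : v ∈ E i
    · exact Or.inl ⟨v, hv, mem_singleton_self _⟩
    · exact Or.inr ⟨by simp [tk, hi, hv], subset_rfl⟩
  · rw [card_singleton]
    omega

/-- deleting `v` from its edges: `g` is the gain, `c` the cost -/
theorem shrink {s g c : ℕ} {I : Finset ℕ} {E : ℕ → Finset ℕ} (v : ℕ) (hvU : v ∈ U I E)
    (hw : g + ∑ i ∈ I with v ∈ E i, wt ((E i).card - 1) ≤
      2 + c + ∑ i ∈ I with v ∈ E i, wt (E i).card)
    (h : Sl (s + c) I (sh v E)) : Sl (s + g) I E := by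
  have := W_sh v hvU
  refine step ∅ ?_ ?_ h
  · intro i hi
    exact Or.inr ⟨hi, erase_subset _ _⟩
  · rw [card_empty]
    omega

theorem U_tk_lt {v : ℕ} {I : Finset ℕ} {E : ℕ → Finset ℕ} (hv : v ∈ U I E) :
    (U (tk v I E) E).card < (U I E).card :=
  lt_of_le_of_lt (card_le_card (U_tk v I E)) (card_erase_lt_of_mem hv)

theorem U_sh_lt {v : ℕ} {I : Finset ℕ} {E : ℕ → Finset ℕ} (hv : v ∈ U I E) :
    (U I (sh v E)).card < (U I E).card := by
  rw [U_sh]; exact card_erase_lt_of_mem hv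

theorem Lin.tk {v : ℕ} {I : Finset ℕ} {E : ℕ → Finset ℕ} (h : Lin I E) : Lin (tk v I E) E :=
  fun i hi j hj => h i (mem_filter.1 hi).1 j (mem_filter.1 hj).1

theorem Lin.sh {v : ℕ} {I : Finset ℕ} {E : ℕ → Finset ℕ} (h : Lin I E) : Lin I (sh v E) :=
  fun i hi j hj hij a ha ha' b hb hb' => h i hi j hj hij a (mem_of_mem_erase ha)
    (mem_of_mem_erase ha') b (mem_of_mem_erase hb) (mem_of_mem_erase hb')

theorem Sz34.tk {v : ℕ} {I : Finset ℕ} {E : ℕ → Finset ℕ} (h : Sz34 I E) : Sz34 (tk v I E) E :=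
  fun i hi => h i (mem_filter.1 hi).1

theorem Sz34.sz {I : Finset ℕ} {E : ℕ → Finset ℕ} (h : Sz34 I E) : Sz I E := by
  intro i hi
  rcases h i hi with h | h <;> omega

theorem Sz.tk {v : ℕ} {I : Finset ℕ} {E : ℕ → Finset ℕ} (h : Sz I E) : Sz (tk v I E) E :=
  fun i hi => h i (mem_filter.1 hi).1

/-- the weight of the edges through `v` -/
theorem sum_wt {v : ℕ} {I : Finset ℕ} {E : ℕ → Finset ℕ} (h : Sz34 I E) :
    ∑ i ∈ I with v ∈ E i, wt (E i).card = 2 * dg 4 v I E + 3 * dg 3 v I E := by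
  have h1 : ∀ i ∈ I.filter (fun i => v ∈ E i), wt (E i).card =
      2 * (if (E i).card = 4 then 1 else 0) + 3 * (if (E i).card = 3 then 1 else 0) := by
    intro i hi
    rcases h i (mem_filter.1 hi).1 with h | h <;> simp [h, wt]
  rw [sum_congr rfl h1, sum_add_distrib, ← mul_sum, ← mul_sum, ← card_filter, ← card_filter,
    filter_filter, filter_filter]
  rfl

/-- the degree of `v` -/
theorem deg_eq {v : ℕ} {I : Finset ℕ} {E : ℕ → Finset ℕ} (h : Sz34 I E) :
    (I.filter (fun i => v ∈ E i)).card = dg 4 v I E + dg 3 v I E := by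
  unfold dg
  rw [← card_union_of_disjoint]
  · congr 1
    ext i
    simp only [mem_filter, mem_union]
    constructor
    · rintro ⟨h1, h2⟩
      rcases h i h1 with h3 | h3
      · exact Or.inr ⟨h1, h2, h3⟩
      · exact Or.inl ⟨h1, h2, h3⟩
    · rintro (⟨h1, h2, _⟩ | ⟨h1, h2, _⟩) <;> exact ⟨h1, h2⟩
  · rw [disjoint_left]
    intro i h1 h2
    have := (mem_filter.1 h1).2.2
    have := (mem_filter.1 h2).2.2
    omega

/-! ## Pieces: the linear case (L)

Below `(d4, d3)` is the type of a vertex: `d4 = dg 4 v I E`, `d3 = dg 3 v I E`. -/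

/-- **L2** (type (2,1); 90 lines). Let `v` lie in the edges `k1, k2` (size 4) and `g` (size 3). `take v`
with `K = ∅` costs nothing (`9 + 0 ≤ 2 + 2 + 2 + 3`); if some other vertex is covered only by edges
through `v`, put it in `K` (gain 2; use `HP`). If `Dft (tk v I E) E`: use `HL`. Otherwise every
`x ∈ (g ∪ k1 ∪ k2) \ v` lies in some edge of `tk v I E`. It is not an edge of size 4: `¬ Dft` says that the
degree of `x` in `tk v I E` would be 3, so at least 4 in `I`, against `2 d4 + 3 d3 ≤ 7`. So it is an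
edge of size 3, which meets no other edge of `tk v I E`: exactly one edge `f x`. `f` is injective on
`g \ v`, `k1 \ v`, `k2 \ v` (`Lin`). Choose `r ∈ g \ v`, `x ∈ k1 \ v` with `f x ≠ f r`, `y ∈ k2 \ v`
with `f y ≠ f r, f x`. Take `r`, `x`, `y`: the edges `g, k1, k2, f r, f x, f y` (weight
3+2+2+9 = 16) disappear with the 10 vertices `K = {v} ∪ f r ∪ f x ∪ f y` (weight 20):
`36 ≥ 27 + 1`: `step {r, x, y}` with `W_del (fun i => r ∈ E i ∨ x ∈ E i ∨ y ∈ E i) K` (these are
exactly the six edges; the vertices of `f r`, `f x`, `f y` lie in no other edges), `HP` for the rest. -/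
def S_L2 : Prop := ∀ (I : Finset ℕ) (E : ℕ → Finset ℕ), HP (U I E).card → HL (U I E).card →
  Sz34 I E → Lin I E → (∀ v, 2 * dg 4 v I E + 3 * dg 3 v I E ≤ 7) →
  (∃ v, dg 4 v I E = 2 ∧ dg 3 v I E = 1) → Sl 1 I E

/-- **L4** (type (2,0); 60 lines). Let `a` lie in exactly two edges `g1, g2`, both of size 4. `shrink a`
with `g = c = 0`. If some vertex of `g1 \ a` or `g2 \ a` lies in a second edge, then
`Dft I (sh a E)`: use `HL`. Otherwise `take a` with `K = (g1 ∪ g2) \ a`, 6 elements: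
`9 + 1 ≤ 2 + 12 + 4`, `HP`. -/
def S_L4 : Prop := ∀ (I : Finset ℕ) (E : ℕ → Finset ℕ), HP (U I E).card → HL (U I E).card →
  Sz34 I E → Lin I E → (∃ v, dg 4 v I E = 2 ∧ dg 3 v I E = 0) → Sl 1 I E

/-- **L5** (type (0,1); 80 lines). `v` lies only in `f = {v, a, b}`. The types of `a`, `b` are (0,1),
(1,1), (0,2).
(i) If `a` is (0,2) (or `b`): `take a` with `K = {v}`: `9 + 1 ≤ 2 + 2 + 6`; `HP`.
(ii) If `a` is (1,1) and `b` is (0,1): `take a` with `K = {v, b}`: `9 + 2 ≤ 2 + 4 + 5`; `HP`.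
(iii) If both are (1,1): `take a` with `K = {v}` (`9 + 0 ≤ 2 + 2 + 5`); in `tk a I E` the vertex
`b` lies in exactly one edge, of size 4 (`Lin`): `shrink b` with `g = 1, c = 0`
(`1 + 3 ≤ 2 + 2`); `HP` (`Sz` of `sh b E`).
(iv) Both are (0,1): `take v` with `K = {a, b}`: `9 + 0 ≤ 2 + 4 + 3`; the defect does not involve
`f`, so `Dft (tk v I E) E`; `HL`. -/
def S_L5 : Prop := ∀ (I : Finset ℕ) (E : ℕ → Finset ℕ), HP (U I E).card → HL (U I E).card →
  Sz34 I E → Lin I E → Dft I E → (∀ v, 2 * dg 4 v I E + 3 * dg 3 v I E ≤ 6) →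
  (∃ v, dg 4 v I E = 0 ∧ dg 3 v I E = 1) → Sl 1 I E

/-- all vertices are of type (3,0), (1,1), (0,2) -/
def Ty (I : Finset ℕ) (E : ℕ → Finset ℕ) : Prop := ∀ v ∈ U I E,
  (dg 4 v I E = 3 ∧ dg 3 v I E = 0) ∨ (dg 4 v I E = 1 ∧ dg 3 v I E = 1) ∨
  (dg 4 v I E = 0 ∧ dg 3 v I E = 2)

/-- **L6A** (90 lines). `f = {v, a, b}` has size 3, `v` is (1,1) with its second edge `k` (size 4), `a` is
(0,2) with its second edge `f2` (size 3). `shrink v` with `g = 0`, `c = 1` (`0 + 3 + 5 ≤ 2 + 1 + 5`);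
in `sh v E` the edge `f` has size 2: `take a` with `K = ∅`: `9 + 1 ≤ 2 + 5 + 3`. Let
`J = tk a I (sh v E)`, sizes 3 and 4, linear. We need `Sl 1 J (sh v E)`: `Dft J (sh v E)` holds, as
`k \ v` (size 3) meets another edge of `J`: the three vertices of `k \ v` are not all in `f2`
(`Lin`); take `x` not in `f2`; it is not in `f` (`Lin`); it has a second edge `j` in `I`
(types), `j ≠ f, f2`, so `j ∈ J`. `HL`. -/
def S_L6A : Prop := ∀ (I : Finset ℕ) (E : ℕ → Finset ℕ), HP (U I E).card → HL (U I E).card →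
  Sz34 I E → Lin I E → Ty I E →
  (∃ f ∈ I, (E f).card = 3 ∧ (∃ v ∈ E f, dg 4 v I E = 1) ∧ ∃ a ∈ E f, dg 3 a I E = 2) → Sl 1 I E

/-- **L6B** (100 lines). `f = {v, a, b}` of size 3, all (1,1), with second edges `kv, ka, kb` of size 4
(different by `Lin`). Use `step {v}` with `J = tk v I E`, `E' = sh b (sh a E)`: by `W_tk` (`K = ∅`)
`W I E ≥ W J E + 7`; in `J` the vertex `a` lies only in `ka`: `W_sh`: `W J E = W J (sh a E) + 1`, then `b`
only in `kb`: `+ 1`; so `W I E ≥ W J E' + 9`. `Dft J E'`: `E' ka = ka \ a` has size 3; let `x` be any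
vertex of it: if `x` is (3,0), then one of its two other edges is not `kv`, so in `J`; if `x` is (1,1),
its edge of size 3 is not `f` (`Lin`), so in `J` (the edges of `v` are `f`, `kv`). `HL`. -/
def S_L6B : Prop := ∀ (I : Finset ℕ) (E : ℕ → Finset ℕ), HP (U I E).card → HL (U I E).card →
  Sz34 I E → Lin I E → Ty I E →
  (∃ f ∈ I, (E f).card = 3 ∧ ∀ v ∈ E f, dg 4 v I E = 1 ∧ dg 3 v I E = 1) → Sl 1 I E

/-- **CUB** (matching in a cubic simple graph; 100 lines). Edges of size 3, linear, every covered vertex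
in exactly two edges, `I ≠ ∅`. Let `m = |I|`, `2 |U| = 3 m`. Let `M ⊆ U` be a largest set of vertices
such that no edge contains two of them (`ν = |M|`); the edges not met by `M`: `R`, `|R| = m - 2 ν`. Every
vertex of an edge of `R` has its second edge outside `R` (else enlarge `M`). For `x ∈ M` with edges
`p, q`: the vertices of `p ∪ q` which lie in an edge of `R` are at most 2: otherwise there
are `y ∈ p`, `z ∈ q` in different edges of `R` (in `p` and `q` there are at most 2 each; use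
`Lin`), and `M \ x ∪ {y, z}` is larger. So `3 |R| ≤ 2 ν`, `3 m ≤ 8 ν`. Transversal: `M` and one vertex of
every edge of `R`: `τ ≤ m - ν ≤ 5 m / 8`, and `9 τ + 1 ≤ 6 m = W` (as `m ≥ 4`; already `m ≥ 3` is
enough: `45 m / 8 + 1 ≤ 6 m`). -/
def S_CUB : Prop := ∀ (I : Finset ℕ) (E : ℕ → Finset ℕ), I.Nonempty → (∀ i ∈ I, (E i).card = 3) →
  Lin I E → (∀ v ∈ U I E, (I.filter (fun i => v ∈ E i)).card = 2) → Sl 1 I E

/-- **L6C** (60 lines; hypothesis `S_CUB`). Let `F ⊆ I` be the set of the edges of size 3, all whose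
vertices are (0,2), and `J = I \ F` (if a vertex of `F` lies in an edge `j`, then `j` has size 3, so
`j ∈ F`: `U F E` and `U J E` are disjoint). `Sl 1 F E` by `S_CUB`, `Sl 0 J E` by `HP`
(`U J E` is smaller), and `W I E = W F E + W J E`. -/
def S_L6C : Prop := ∀ (I : Finset ℕ) (E : ℕ → Finset ℕ), HP (U I E).card →
  Sz34 I E → Lin I E → (∀ f ∈ I, (E f).card = 3 → ∀ v ∈ E f, dg 3 v I E = 2 ∧ dg 4 v I E = 0) →
  (∃ f ∈ I, (E f).card = 3) → Sl 1 I E

/-- **P** (the general case; 120 lines). (1) Size 1, `E i = {v}`: `take v`, `9 ≤ 2 + 7`. (2) If the weight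
`∑ i ∈ I with v ∈ E i, wt` of some covered `v` is `≥ 7`: `take v`. (3) Size 2, `E i = {a, b}` (weight 5,
so no other edges at `a`, `b`): `take a` with `K = {b}`: `9 ≤ 2 + 2 + 5`. So `Sz34`. (4) Types
(1,0), (2,0), (0,1): `shrink v` with `g = c = 0` (`3 ≤ 2 + 2`, `6 ≤ 2 + 4`, `5 ≤ 2 + 3`), `HP`. Now all
types are (3,0), (1,1), (0,2). (5) Not linear: edges `i ≠ j` share `v ≠ w`: if `v` is (0,2) or
(1,1), then so is `w`, with the same edges: `take v` with `K = {w}` (`9 ≤ 2 + 2 + 5`). If `v` is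
(3,0), then so is `w`: `take v` with the weight `2 + 6`, one short; `w` is now in at most one edge: none:
`K = {w}`; one, of size 4: `shrink w` gains 1 (`step {v}` with
`J = tk v I E`, `E' = sh w E`, `W_tk`, `W_sh`). (6) Linear and `Dft`: hypothesis. (7) Linear, no defect: no edge of size 3
(its vertices would be (0,1)); all vertices are (3,0). If `I = ∅`: trivial. `take v` is one short; in
`tk v I E` another vertex of an edge through `v` has degree 2 (`Lin`) and lies in an edge of size 4: a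
defect, `HL` gives `Sl 1`: `step {v}` with `t = 0`, `s = 1`. -/
def S_P : Prop := ∀ (I : Finset ℕ) (E : ℕ → Finset ℕ), HP (U I E).card → HL (U I E).card →
  (Sz34 I E → Lin I E → Dft I E → Sl 1 I E) → Sz I E → Sl 0 I E

/-! ## Pieces: Chvátal and McDiarmid -/

/-- **CM2** (degree at most 2; 120 lines; from `Run7.h175.tutte_berge`, module
`Pool.Agent.Run7.h175.TB`, which imports only Mathlib). `G` = simple graph on `I` (or on a type):
`i ~ j` iff `i ≠ j` and `E i ∩ E j ≠ ∅`. Let `D` be the set of the vertices of degree 2, `m = |I|`,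
`h = r / 2`; `|U| = r m - |D|`. `tutte_berge`: if every family `F` of disjoint odd sets closed off by
`A` has `|F| ≤ |A| + l` (`m + l` even), then `G` has a matching which misses at most `l` vertices; take
the smallest such `l ≥ 0` (`l = 0` or equality `|F| = |A| + l` for some `A`, `F`), so
`ν ≥ (m - l) / 2`. The transversal of the matching: `τ ≤ m - ν`. To show: `(r + h) ν ≥ |D|`. If `l` is
`0` or `1`: `|D| ≤ r m / 2`, `m = 2 ν + l`, fine for `ν ≥ 1` (`⌊r (2ν+1) / 2⌋ ≤ ν (r + h)`), and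
`|D| = 0` for `ν = 0`. Otherwise count `D` over `A`, the sets `O ∈ F` and the rest `Z`:
`|D| ≤ r |A| + Σ_O ⌊r |O| / 2⌋ (0 if |O| = 1) + ⌊r |Z| / 2⌋`, `⌊r (2c+1) / 2⌋ ≤ c (r + h)` for
`c ≥ 1`, and `2 ν ≥ m - l = 2 |A| + Σ (|O| - 1) + |Z|`; every
vertex of `D` with an edge in `A` is counted in `r |A|`. (`|Z|` is even; or put an odd `Z` into `F`.)
Any other proof (Shannon's theorem, augmenting paths) is welcome. -/
def S_CM2 : Prop := ∀ (r : ℕ) (I : Finset ℕ) (E : ℕ → Finset ℕ), 2 ≤ r →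
  (∀ i ∈ I, (E i).card = r) → (∀ v, (I.filter (fun i => v ∈ E i)).card ≤ 2) →
  ∃ T : Finset ℕ, Tra T I E ∧ (r + r / 2) * T.card ≤ (U I E).card + (r / 2) * I.card

/-- **CM** (50 lines; hypothesis `S_CM2`). Induction over `I.card`: a vertex of degree `≥ 3` is taken:
`r + r / 2 ≤ 1 + 3 (r / 2)`. -/
def S_CM : Prop := ∀ (r : ℕ) (I : Finset ℕ) (E : ℕ → Finset ℕ), 2 ≤ r →
  (∀ i ∈ I, (E i).card = r) →
  ∃ T : Finset ℕ, Tra T I E ∧ (r + r / 2) * T.card ≤ (U I E).card + (r / 2) * I.card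

/-! ## Domination -/

/-- `k`-uniform hypergraphs without isolated vertices, with at least one vertex -/
structure UHG (k : ℕ) where
  n : ℕ
  pos : 0 < n
  edges : Finset (Finset (Fin n))
  unif : ∀ e ∈ edges, e.card = k
  noIso : ∀ v, ∃ e ∈ edges, v ∈ e

/-- dominating sets -/
def Dom {k : ℕ} (H : UHG k) (D : Finset (Fin H.n)) : Prop :=
  ∀ v, v ∉ D → ∃ d ∈ D, d ≠ v ∧ ∃ e ∈ H.edges, v ∈ e ∧ d ∈ e

/-- the domination number -/
noncomputable def dom {k : ℕ} (H : UHG k) : ℕ := sInf {c | ∃ D, Dom H D ∧ D.card = c}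

/-- **RED** (the reduction of Bujtás, Henning and Tuza; 90 lines). Let `C ⊆ H.edges` be a minimal set
of edges which covers all vertices. Every `e ∈ C` has a vertex `p e` which lies in no other edge of
`C`. `I = {0, …, |C| - 1}`, `E i` = image of `e \ p e` in `ℕ` for the `i`-th edge `e` of `C`.
`U I E` avoids the `|C|` vertices `p e`. If `T` meets all `E i`, then `T` (as a set of vertices) is
dominating. -/
def S_RED : Prop := ∀ (k : ℕ) (H : UHG k), 2 ≤ k →
  ∃ (I : Finset ℕ) (E : ℕ → Finset ℕ), (∀ i ∈ I, (E i).card = k - 1) ∧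
    (U I E).card + I.card ≤ H.n ∧ I.card ≤ H.edges.card ∧ ∀ T, Tra T I E → dom H ≤ T.card

/-- **DEX** (the extremal examples; 100 lines). `r = k - 1`, `h = r / 2`. First: one edge. Second:
three sets `A, B, C` of sizes `h, h, h` and for odd `r` one more vertex in two of the three edges, one more
vertex in the third edge (or any three `r`-sets on `⌈3r/2⌉` points without a common point and with union
everything), and a private vertex for each of the three edges. One vertex does not dominate the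
three private vertices; two do (any two edges share a vertex). -/
def S_DEX : Prop := (∀ k, 1 ≤ k → ∃ H : UHG k, H.n = k ∧ H.edges.card = 1 ∧ dom H = 1) ∧
  ∀ k, 4 ≤ k → ∃ H : UHG k, H.n = (3 * (k - 1) + 1) / 2 + 3 ∧ H.edges.card = 3 ∧ dom H = 2

end Run7.h426.DOM
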