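import Pool.Agent.Run7.h426.DOM.Iface

/-!
# Project DOM: the assembly
-/

set_option autoImplicit false

namespace Run7.h426.DOM

open Finset

theorem Sz34.sh_sz {v : ℕ} {I : Finset ℕ} {E : ℕ → Finset ℕ} (h : Sz34 I E) : Sz I (sh v E) := by
  intro i hi
  have h1 : (sh v E i).card ≤ (E i).card := card_le_card (erase_subset _ _)
  have h2 : (E i).card ≤ (sh v E i).card + 1 := by
    unfold sh
    have := pred_card_le_card_erase (s := E i) (a := v)
    omega
  rcases h i hi with h | h <;> omega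

theorem mem_U_of_dg {s v : ℕ} {I : Finset ℕ} {E : ℕ → Finset ℕ} (h : dg s v I E ≠ 0) :
    v ∈ U I E := by
  obtain ⟨i, hi⟩ := card_ne_zero.1 h
  obtain ⟨h1, h2, _⟩ := mem_filter.1 hi
  exact mem_biUnion.2 ⟨i, h1, h2⟩

/-- the sum of the weights after a deletion -/
theorem sum_wt_sh {v : ℕ} {I : Finset ℕ} {E : ℕ → Finset ℕ} (h : Sz34 I E) :
    ∑ i ∈ I with v ∈ E i, wt ((E i).card - 1) = 3 * dg 4 v I E + 5 * dg 3 v I E := by
  have h1 : ∀ i ∈ I.filter (fun i => v ∈ E i), wt ((E i).card - 1) =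
      3 * (if (E i).card = 4 then 1 else 0) + 5 * (if (E i).card = 3 then 1 else 0) := by
    intro i hi
    rcases h i (mem_filter.1 hi).1 with h | h <;> simp [h, wt]
  rw [sum_congr rfl h1, sum_add_distrib, ← mul_sum, ← mul_sum, ← card_filter, ← card_filter,
    filter_filter, filter_filter]
  rfl

theorem stepL (l2 : S_L2) (l4 : S_L4) (l5 : S_L5) (l6a : S_L6A) (l6b : S_L6B) (l6c : S_L6C)
    (I : Finset ℕ) (E : ℕ → Finset ℕ) (hp : HP (U I E).card) (hl : HL (U I E).card)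
    (hz : Sz34 I E) (hlin : Lin I E) (hd : Dft I E) : Sl 1 I E := by
  by_cases h8 : ∃ v, 8 ≤ 2 * dg 4 v I E + 3 * dg 3 v I E
  · obtain ⟨v, hv⟩ := h8
    have hvU : v ∈ U I E := by
      by_cases h4 : dg 4 v I E = 0
      · exact mem_U_of_dg (s := 3) (by omega)
      · exact mem_U_of_dg h4
    refine take (s := 0) (g := 1) v ∅ hvU (by simp) (by simp) (by simp) ?_
      (hp _ _ (U_tk_lt hvU) hz.sz.tk)
    rw [sum_wt hz]
    simp only [card_empty]
    omega
  have h7 : ∀ v, 2 * dg 4 v I E + 3 * dg 3 v I E ≤ 7 := by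
    intro v
    by_contra hcon
    exact h8 ⟨v, by omega⟩
  by_cases h21 : ∃ v, dg 4 v I E = 2 ∧ dg 3 v I E = 1
  · exact l2 I E hp hl hz hlin h7 h21
  have h6 : ∀ v, 2 * dg 4 v I E + 3 * dg 3 v I E ≤ 6 := by
    intro v
    have := h7 v
    by_contra hcon
    apply h21
    exact ⟨v, by omega, by omega⟩
  by_cases h10 : ∃ v, dg 4 v I E = 1 ∧ dg 3 v I E = 0
  · obtain ⟨v, hv1, hv2⟩ := h10
    have hvU : v ∈ U I E := mem_U_of_dg (s := 4) (by omega)
    refine shrink (s := 0) (g := 1) (c := 0) v hvU ?_ (hp _ _ (U_sh_lt hvU) hz.sh_sz)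
    rw [sum_wt hz, sum_wt_sh hz, hv1, hv2]
  by_cases h20 : ∃ v, dg 4 v I E = 2 ∧ dg 3 v I E = 0
  · exact l4 I E hp hl hz hlin h20
  by_cases h01 : ∃ v, dg 4 v I E = 0 ∧ dg 3 v I E = 1
  · exact l5 I E hp hl hz hlin hd h6 h01
  have hTy : Ty I E := by
    intro v hv
    have h1 := h6 v
    obtain ⟨i, hi, hvi⟩ := mem_biUnion.1 hv
    have h2 : 1 ≤ dg 4 v I E + dg 3 v I E := by
      rw [← deg_eq hz]
      exact card_pos.2 ⟨i, mem_filter.2 ⟨hi, hvi⟩⟩
    have h3 : ¬ (dg 4 v I E = 1 ∧ dg 3 v I E = 0) := fun h => h10 ⟨v, h⟩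
    have h4 : ¬ (dg 4 v I E = 2 ∧ dg 3 v I E = 0) := fun h => h20 ⟨v, h⟩
    have h5 : ¬ (dg 4 v I E = 0 ∧ dg 3 v I E = 1) := fun h => h01 ⟨v, h⟩
    omega
  by_cases h3 : ∃ f ∈ I, (E f).card = 3
  · by_cases hall : ∀ f ∈ I, (E f).card = 3 → ∀ v ∈ E f, dg 3 v I E = 2 ∧ dg 4 v I E = 0
    · exact l6c I E hp hz hlin hall h3
    · push Not at hall
      obtain ⟨f, hf, hf3, v, hvf, hv⟩ := hall
      have hd3 : ∀ w ∈ E f, 1 ≤ dg 3 w I E := by
        intro w hw
        exact card_pos.2 ⟨f, mem_filter.2 ⟨hf, hw, hf3⟩⟩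
      have hfU : ∀ w ∈ E f, w ∈ U I E := fun w hw => mem_biUnion.2 ⟨f, hf, hw⟩
      have hv11 : dg 4 v I E = 1 := by
        have h1 := hd3 v hvf
        have h2 := hTy v (hfU v hvf)
        by_contra hcon
        have : dg 3 v I E = 2 := by omega
        have := hv this
        omega
      by_cases hb : ∀ w ∈ E f, dg 4 w I E = 1 ∧ dg 3 w I E = 1
      · exact l6b I E hp hl hz hlin hTy ⟨f, hf, hf3, hb⟩
      · push Not at hb
        obtain ⟨a, haf, ha⟩ := hb
        refine l6a I E hp hl hz hlin hTy ⟨f, hf, hf3, ⟨v, hvf, hv11⟩, a, haf, ?_⟩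
        have h1 := hd3 a haf
        have h2 := hTy a (hfU a haf)
        by_contra hcon
        have h3 : dg 4 a I E = 1 := by omega
        have := ha h3
        omega
  · exfalso
    rcases hd with ⟨i, hi, _, v, hv, hdeg⟩ | ⟨i, hi, hi3, _⟩
    · apply hdeg
      rw [deg_eq hz]
      have h2 := hTy v (mem_biUnion.2 ⟨i, hi, hv⟩)
      have h0 : dg 3 v I E = 0 := by
        by_contra hcon
        obtain ⟨j, hj⟩ := card_ne_zero.1 hcon
        obtain ⟨h4, _, h5⟩ := mem_filter.1 hj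
        exact h3 ⟨j, h4, h5⟩
      omega
    · exact h3 ⟨i, hi, hi3⟩

theorem both (l2 : S_L2) (l4 : S_L4) (l5 : S_L5) (l6a : S_L6A) (l6b : S_L6B) (l6c : S_L6C)
    (hP : S_P) (N : ℕ) : HP N ∧ HL N := by
  induction N with
  | zero => exact ⟨fun I E h => absurd h (Nat.not_lt_zero _), fun I E h => absurd h (Nat.not_lt_zero _)⟩
  | succ N ih =>
    have key : ∀ I E, (U I E).card < N + 1 → HP (U I E).card ∧ HL (U I E).card := by
      intro I E h
      exact ⟨fun I' E' h' => ih.1 I' E' (by omega), fun I' E' h' => ih.2 I' E' (by omega)⟩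
    refine ⟨fun I E h hz => ?_, fun I E h hz hlin hd => ?_⟩
    · obtain ⟨h1, h2⟩ := key I E h
      exact hP I E h1 h2 (fun a b c => stepL l2 l4 l5 l6a l6b l6c I E h1 h2 a b c) hz
    · obtain ⟨h1, h2⟩ := key I E h
      exact stepL l2 l4 l5 l6a l6b l6c I E h1 h2 hz hlin hd

/-- `9 τ ≤ 2 (n + m)` for edges of size 4 -/
theorem four (l2 : S_L2) (l4 : S_L4) (l5 : S_L5) (l6a : S_L6A) (l6b : S_L6B) (l6c : S_L6C)
    (hP : S_P) (I : Finset ℕ) (E : ℕ → Finset ℕ) (h4 : ∀ i ∈ I, (E i).card = 4) :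
    ∃ T : Finset ℕ, Tra T I E ∧ 9 * T.card ≤ 2 * ((U I E).card + I.card) := by
  obtain ⟨T, h1, h2⟩ := (both l2 l4 l5 l6a l6b l6c hP ((U I E).card + 1)).1 I E (Nat.lt_succ_self _)
    (fun i hi => by rw [h4 i hi]; omega)
  refine ⟨T, h1, ?_⟩
  have : ∑ i ∈ I, wt (E i).card = 2 * I.card := by
    rw [sum_congr rfl (fun i hi => by rw [h4 i hi]; rfl : ∀ i ∈ I, wt (E i).card = 2)]
    rw [sum_const, smul_eq_mul, mul_comm]
  unfold W at h2
  omega

/-! ## Domination -/

/-- the domain `D_k` -/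
def InD (k : ℕ) (x y : ℝ) : Prop := 0 ≤ y ∧ -y / k < x

/-- the set of the quotients `γ(H) / (x n + y m)` -/
def ratios (k : ℕ) (x y : ℝ) : Set ℝ :=
  {q | ∃ H : UHG k, q = (dom H : ℝ) / (x * H.n + y * H.edges.card)}

theorem n_le {k : ℕ} (H : UHG k) : H.n ≤ k * H.edges.card := by
  have h1 : (univ : Finset (Fin H.n)) ⊆ H.edges.biUnion id := by
    intro v _
    obtain ⟨e, he, hv⟩ := H.noIso v
    exact mem_biUnion.2 ⟨e, he, hv⟩
  have h2 := card_le_card h1
  rw [card_univ, Fintype.card_fin] at h2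
  have h3 : ∑ e ∈ H.edges, (id e).card = H.edges.card * k :=
    sum_const_nat (fun e he => H.unif e he)
  refine h2.trans (card_biUnion_le.trans ?_)
  rw [h3, mul_comm]

theorem m_pos {k : ℕ} (H : UHG k) : 0 < H.edges.card := by
  obtain ⟨e, he, _⟩ := H.noIso ⟨0, H.pos⟩
  exact card_pos.2 ⟨e, he⟩

theorem dom_le_m (hR : S_RED) {k : ℕ} (hk : 2 ≤ k) (H : UHG k) : dom H ≤ H.edges.card := by
  obtain ⟨I, E, h1, _, h3, h4⟩ := hR k H hk
  have hne : ∀ i : ℕ, ∃ a : ℕ, i ∈ I → a ∈ E i := by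
    intro i
    by_cases hi : i ∈ I
    · obtain ⟨a, ha⟩ := card_pos.1 (by rw [h1 i hi]; omega : 0 < (E i).card)
      exact ⟨a, fun _ => ha⟩
    · exact ⟨0, fun h => absurd h hi⟩
  choose f hf using hne
  refine (h4 (I.image f) ?_).trans (card_image_le.trans h3)
  intro i hi
  exact ⟨f i, hf i hi, mem_image_of_mem f hi⟩

/-- the theorem of Bujtás, Henning and Tuza -/
theorem dom_le (hR : S_RED) (hC : S_CM) {k : ℕ} (hk : 4 ≤ k) (H : UHG k) :
    (k + (k - 3) / 2) * dom H ≤ H.n + (k - 3) / 2 * H.edges.card := by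
  obtain ⟨I, E, h1, h2, h3, h4⟩ := hR k H (by omega)
  obtain ⟨T, hT, hT2⟩ := hC (k - 1) I E (by omega) h1
  have h5 := h4 T hT
  have h6 : (k - 1) / 2 = (k - 3) / 2 + 1 := by omega
  rw [h6] at hT2
  generalize (k - 3) / 2 = c at *
  have h7 : k - 1 + (c + 1) = k + c := by omega
  rw [h7] at hT2
  calc (k + c) * dom H ≤ (k + c) * T.card := Nat.mul_le_mul_left _ h5
    _ ≤ (U I E).card + (c + 1) * I.card := hT2
    _ = ((U I E).card + I.card) + c * I.card := by ring
    _ ≤ H.n + c * H.edges.card := Nat.add_le_add h2 (Nat.mul_le_mul_left _ h3)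

theorem den_pos {k : ℕ} (hk : 1 ≤ k) {x y : ℝ} (h : InD k x y) (H : UHG k) :
    0 < x * H.n + y * H.edges.card := by
  obtain ⟨hy, hx⟩ := h
  have hk' : (0 : ℝ) < k := by exact_mod_cast hk
  have hm : (0 : ℝ) < H.edges.card := by exact_mod_cast m_pos H
  have hn : (0 : ℝ) < H.n := by exact_mod_cast H.pos
  have hnm : (H.n : ℝ) ≤ k * H.edges.card := by exact_mod_cast n_le H
  have h1 : 0 < x * k + y := by
    have := mul_lt_mul_of_pos_right hx hk'
    rw [div_mul_cancel₀ _ hk'.ne'] at this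
    linarith
  rcases le_or_gt x 0 with hx0 | hx0
  · have h2 : x * (k * H.edges.card) ≤ x * H.n := mul_le_mul_of_nonpos_left hnm hx0
    have h3 : 0 < (x * k + y) * H.edges.card := mul_pos h1 hm
    nlinarith
  · have h2 : 0 < x * H.n := mul_pos hx0 hn
    have h3 : 0 ≤ y * H.edges.card := mul_nonneg hy hm.le
    linarith

theorem val_pos {k : ℕ} (hk : 1 ≤ k) {x y : ℝ} (h : InD k x y) : 0 < k * x + y := by
  obtain ⟨hy, hx⟩ := h
  have hk' : (0 : ℝ) < k := by exact_mod_cast hk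
  have := mul_lt_mul_of_pos_right hx hk'
  rw [div_mul_cancel₀ _ hk'.ne'] at this
  linarith

/-- the upper bound on the flat region -/
theorem upper (hR : S_RED) (hC : S_CM) {k : ℕ} (hk : 4 ≤ k) {x y : ℝ} (h : InD k x y)
    (hxy : x ≤ 0 ∨ ((k - 3) / 2 : ℕ) * x ≤ y) (H : UHG k) :
    (dom H : ℝ) / (x * H.n + y * H.edges.card) ≤ 1 / (k * x + y) := by
  have hden := den_pos (by omega) h H
  have hval := val_pos (k := k) (by omega) h
  rw [div_le_div_iff₀ hden hval, one_mul]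
  have hm : (dom H : ℝ) ≤ H.edges.card := by exact_mod_cast dom_le_m hR (by omega) H
  have hnm : (H.n : ℝ) ≤ k * H.edges.card := by exact_mod_cast n_le H
  have h0 : (0 : ℝ) ≤ dom H := Nat.cast_nonneg _
  rcases hxy with hx | hxy
  · have h2 : x * (k * H.edges.card) ≤ x * H.n := mul_le_mul_of_nonpos_left hnm hx
    have h3 : (k * x + y) * dom H ≤ (k * x + y) * H.edges.card :=
      mul_le_mul_of_nonneg_left hm hval.le
    nlinarith
  · rcases le_or_gt x 0 with hx | hx
    · have h2 : x * (k * H.edges.card) ≤ x * H.n := mul_le_mul_of_nonpos_left hnm hx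
      have h3 : (k * x + y) * dom H ≤ (k * x + y) * H.edges.card :=
        mul_le_mul_of_nonneg_left hm hval.le
      nlinarith
    · have h1 : ((k : ℝ) + ((k - 3) / 2 : ℕ)) * dom H ≤ H.n + ((k - 3) / 2 : ℕ) * H.edges.card := by
        exact_mod_cast dom_le hR hC hk H
      generalize (((k - 3) / 2 : ℕ) : ℝ) = c at *
      have h2 : x * (((k : ℝ) + c) * dom H) ≤ x * (H.n + c * H.edges.card) :=
        mul_le_mul_of_nonneg_left h1 hx.le
      have h3 : (y - c * x) * dom H ≤ (y - c * x) * H.edges.card :=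
        mul_le_mul_of_nonneg_left hm (by linarith)
      nlinarith

theorem attained1 (hX : S_DEX) {k : ℕ} (hk : 1 ≤ k) (x y : ℝ) :
    1 / (k * x + y) ∈ ratios k x y := by
  obtain ⟨H, h1, h2, h3⟩ := hX.1 k hk
  refine ⟨H, ?_⟩
  have h1' : (H.n : ℝ) = k := by exact_mod_cast h1
  have h2' : (H.edges.card : ℝ) = 1 := by exact_mod_cast h2
  have h3' : (dom H : ℝ) = 1 := by exact_mod_cast h3
  rw [h1', h2', h3']
  congr 1
  ring

theorem attained2 (hX : S_DEX) {k : ℕ} (hk : 4 ≤ k) (x y : ℝ) :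
    2 / (((3 * (k - 1) + 1) / 2 + 3 : ℕ) * x + 3 * y) ∈ ratios k x y := by
  obtain ⟨H, h1, h2, h3⟩ := hX.2 k hk
  refine ⟨H, ?_⟩
  have h1' : (H.n : ℝ) = ((3 * (k - 1) + 1) / 2 + 3 : ℕ) := by exact_mod_cast h1
  have h2' : (H.edges.card : ℝ) = 3 := by exact_mod_cast h2
  have h3' : (dom H : ℝ) = 2 := by exact_mod_cast h3
  rw [h1', h2', h3']
  congr 1
  ring

/-- the assembled theorem -/
theorem main (l2 : S_L2) (l4 : S_L4) (l5 : S_L5) (l6a : S_L6A) (l6b : S_L6B) (l6c : S_L6C)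
    (hP : S_P) (hC : S_CM) (hR : S_RED) (hX : S_DEX) :
    (∀ x y : ℝ, InD 4 x y → IsGreatest (ratios 4 x y) (1 / (4 * x + y))) ∧
    (∀ x y : ℝ, InD 5 x y →
      IsGreatest (ratios 5 x y) (max (1 / (5 * x + y)) (2 / (9 * x + 3 * y)))) ∧
    (∀ k : ℕ, 4 ≤ k → ∀ x y : ℝ, InD k x y →
      (IsLUB (ratios k x y) (1 / (k * x + y)) ↔ (x ≤ 0 ∨ ((k - 3) / 2 : ℕ) * x ≤ y))) := by
  refine ⟨fun x y h => ?_, fun x y h => ?_, fun k hk x y h => ?_⟩
  · refine ⟨by simpa using attained1 hX (k := 4) (by norm_num) x y, ?_⟩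
    rintro q ⟨H, rfl⟩
    have := upper hR hC (k := 4) le_rfl h (by
      rcases le_or_gt x 0 with hx | hx
      · exact Or.inl hx
      · right; simpa using h.1) H
    simpa using this
  · have hv := val_pos (k := 5) (by norm_num) h
    have hv' : 0 < 5 * x + y := by simpa using hv
    have h9 : 0 < 9 * x + 3 * y := by
      have := h.1
      rcases le_or_gt x 0 with hx | hx <;> nlinarith
    constructor
    · rcases max_choice (1 / (5 * x + y)) (2 / (9 * x + 3 * y)) with hm | hm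
      · rw [hm]; simpa using attained1 hX (k := 5) (by norm_num) x y
      · rw [hm]; simpa using attained2 hX (k := 5) (by norm_num) x y
    · rintro q ⟨H, rfl⟩
      rcases le_or_gt (((5 - 3) / 2 : ℕ) * x) y with hxy | hxy
      · refine le_trans ?_ (le_max_left _ _)
        simpa using upper hR hC (k := 5) (by norm_num) h (Or.inr hxy) H
      · rcases le_or_gt x 0 with hx | hx
        · refine le_trans ?_ (le_max_left _ _)
          simpa using upper hR hC (k := 5) (by norm_num) h (Or.inl hx) H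
        · refine le_trans ?_ (le_max_right _ _)
          have hden := den_pos (by norm_num) h H
          rw [div_le_div_iff₀ hden h9]
          have hxy' : y < x := by simpa using hxy
          have h1 : ((5 : ℝ) + 1) * dom H ≤ H.n + 1 * H.edges.card := by
            exact_mod_cast dom_le hR hC (k := 5) (by norm_num) H
          have h2 : (9 : ℝ) * dom H ≤ 2 * H.n := by
            obtain ⟨I, E, g1, g2, g3, g4⟩ := hR 5 H (by norm_num)
            obtain ⟨T, hT, hT2⟩ := four l2 l4 l5 l6a l6b l6c hP I E g1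
            have g5 := g4 T hT
            have : 9 * dom H ≤ 2 * H.n := by omega
            exact_mod_cast this
          have h3 := mul_le_mul_of_nonneg_left h1 h.1
          have h4 := mul_le_mul_of_nonneg_left h2 (by linarith : 0 ≤ x - y)
          nlinarith
  · constructor
    · intro hl
      by_contra hcon
      push Not at hcon
      obtain ⟨hx, hxy⟩ := hcon
      have h1 := hl.1 (attained2 hX hk x y)
      have hv := val_pos (k := k) (by omega) h
      have hpos : (0 : ℝ) < ((3 * (k - 1) + 1) / 2 + 3 : ℕ) * x + 3 * y := by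
        have : (0 : ℝ) < ((3 * (k - 1) + 1) / 2 + 3 : ℕ) := by positivity
        have := mul_pos this hx
        have := h.1
        linarith
      rw [div_le_div_iff₀ hpos hv] at h1
      have h2 : (3 * (k - 1) + 1) / 2 + 3 + (k - 3) / 2 = 2 * k := by omega
      have h3 : (((3 * (k - 1) + 1) / 2 + 3 : ℕ) : ℝ) + ((k - 3) / 2 : ℕ) = 2 * k := by
        exact_mod_cast h2
      generalize (((3 * (k - 1) + 1) / 2 + 3 : ℕ) : ℝ) = a at *
      generalize (((k - 3) / 2 : ℕ) : ℝ) = c at *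
      have : a = 2 * k - c := by linarith
      subst this
      nlinarith
    · intro hxy
      refine IsGreatest.isLUB ⟨attained1 hX (by omega) x y, ?_⟩
      rintro q ⟨H, rfl⟩
      exact upper hR hC hk h hxy H

end Run7.h426.DOM
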